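import Pool.Agent.LFT.Graph
import Pool.Agent.LFT.TriStmts

/-!
# GRAPH for triangles (MP_9c589f_co): the potential on the edge graph of the triangle tiling
-/

namespace Pool.Agent.LFT53

open MeasureTheory Set Filter Topology
open scoped RealInnerProductSpace ENNReal
open Pool.Agent.LFT

/-- membership in the graph of the triangle tiling, in coordinates -/
def OnT (δ x y : ℝ) : Prop :=
  (∃ m : ℤ, y = m) ∨ (∃ m : ℤ, x - ⌊y⌋ * δ = m) ∨ (∃ m : ℤ, x - ⌊y⌋ * δ + (y - ⌊y⌋) = m)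

/-- the potential inside row `j` -/
noncomputable def row (b c τ W j x y : ℝ) : ℝ :=
  j * (W + b * τ * ((1 + τ) / 2)) + b * τ * (x - j * ((1 + τ) / 2)) + c * (y - j)

open Classical in
/-- the potential, in coordinates -/
noncomputable def potT (b c τ W x y : ℝ) : ℝ :=
  if (∃ m : ℤ, y = m) then Graph.pot b c τ W x y else row b c τ W ⌊y⌋ x y

theorem potT_row (b c τ W x y : ℝ) (hy : ¬ ∃ m : ℤ, y = m) :
    potT b c τ W x y = row b c τ W ⌊y⌋ x y := by
  unfold potT
  rw [if_neg hy]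

theorem potT_int (b c τ W x : ℝ) (j : ℤ) :
    potT b c τ W x j =
      j * (W + b * τ * ((1 + τ) / 2)) + Graph.psi b τ (x - j * ((1 + τ) / 2)) := by
  unfold potT
  rw [if_pos ⟨j, rfl⟩]
  unfold Graph.pot
  rw [Int.floor_intCast]
  ring

/-- at the lower end of an edge -/
theorem potT_low (b c τ W x : ℝ) (hb : 0 ≤ b) (hτ : |τ| ≤ 1) (j m : ℤ)
    (h : x - j * ((1 + τ) / 2) = m) : potT b c τ W x j = row b c τ W j x j := by
  rw [potT_int, h, Graph.psi_int b τ hb hτ]
  unfold row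
  rw [h]
  ring

/-- at the upper end of an edge -/
theorem potT_up (b c τ W x : ℝ) (hb : 0 ≤ b) (hτ : |τ| ≤ 1)
    (hW : W = c + b * (1 - τ ^ 2) / 2) (j m : ℤ)
    (h : x - (j - 1) * ((1 + τ) / 2) = m) :
    potT b c τ W x j = row b c τ W (j - 1) x j := by
  have e : x - j * ((1 + τ) / 2) = m - (1 + τ) / 2 := by rw [← h]; ring
  rw [potT_int, e, Graph.psi_half b τ hb hτ]
  unfold row
  rw [h, hW]
  ring

theorem row_sub (b c τ W j x y x0 y0 : ℝ) :
    row b c τ W j x y - row b c τ W j x0 y0 = b * τ * (x - x0) + c * (y - y0) := by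
  unfold row
  ring

/-- the two kinds of edges that are not horizontal -/
theorem edge_cases (b c g τ W j x y x0 y0 : ℝ) (hc : 0 ≤ c) (hg : |c - b * τ| ≤ g)
    (h : x = x0 ∨ x - x0 = -(y - y0)) :
    (x = x0 ∧ |row b c τ W j x y - row b c τ W j x0 y0| ≤ c * |y - y0|) ∨
      (x - x0 = -(y - y0) ∧ |row b c τ W j x y - row b c τ W j x0 y0| ≤ g * |y - y0|) := by
  rcases h with h | h
  · left
    refine ⟨h, ?_⟩
    rw [row_sub, h, sub_self, mul_zero, zero_add, abs_mul, abs_of_nonneg hc]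
  · right
    refine ⟨h, ?_⟩
    rw [row_sub, h, show b * τ * -(y - y0) + c * (y - y0) = (c - b * τ) * (y - y0) by ring, abs_mul]
    exact mul_le_mul_of_nonneg_right hg (abs_nonneg _)

/-- the local estimate, in coordinates. -/
theorem potT_local (b c g τ W : ℝ) (hb : 0 ≤ b) (hc : 0 ≤ c) (hτ : |τ| ≤ 1)
    (hg : |c - b * τ| ≤ g) (hW : W = c + b * (1 - τ ^ 2) / 2) (x0 y0 : ℝ) :
    ∃ ε > 0, ∀ x y : ℝ, |x - x0| < ε → |y - y0| < ε → OnT ((1 + τ) / 2) x y →
      (x = x0 ∧ |potT b c τ W x y - potT b c τ W x0 y0| ≤ c * |y - y0|) ∨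
      (y = y0 ∧ |potT b c τ W x y - potT b c τ W x0 y0| ≤ b * |x - x0|) ∨
      (x - x0 = -(y - y0) ∧ |potT b c τ W x y - potT b c τ W x0 y0| ≤ g * |y - y0|) := by
  set δ := (1 + τ) / 2 with hδ
  by_cases hy0 : ∃ m : ℤ, y0 = m
  · obtain ⟨j, rfl⟩ := hy0
    obtain ⟨ε1, hε1, h1⟩ := Graph.int_near (x0 - j * δ)
    obtain ⟨ε2, hε2, h2⟩ := Graph.int_near (x0 - (j - 1) * δ)
    refine ⟨min (1 / 2) (min (ε1 / 2) (ε2 / 2)),
      lt_min (by norm_num) (lt_min (by linarith) (by linarith)), ?_⟩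
    intro x y hx hy hG
    rw [lt_min_iff, lt_min_iff] at hx hy
    have hxa := abs_lt.1 hx.2.1
    have hxb := abs_lt.1 hx.2.2
    have hya := abs_lt.1 hy.2.1
    have hyb := abs_lt.1 hy.2.2
    have hy1 := abs_lt.1 hy.1
    rcases lt_trichotomy y j with hlt | heq | hgt
    · -- below
      have hfl : ⌊y⌋ = j - 1 := by
        rw [Int.floor_eq_iff]
        push_cast
        constructor <;> linarith
      have hni : ¬ ∃ m : ℤ, y = m := by
        rintro ⟨m, hm⟩
        rw [hm, Int.floor_intCast] at hfl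
        rw [hm, hfl] at hy1
        push_cast at hy1
        linarith
      have hflr : ((⌊y⌋ : ℤ) : ℝ) = (j : ℝ) - 1 := by rw [hfl]; push_cast; ring
      have key : (∃ m : ℤ, x0 - (j - 1) * δ = m) ∧ (x = x0 ∨ x - x0 = -(y - j)) := by
        rcases hG with h | ⟨m, hm⟩ | ⟨m, hm⟩
        · exact absurd h hni
        · rw [hflr] at hm
          have := h2 (x - (j - 1) * δ)
            (by rw [show x - (j - 1) * δ - (x0 - (j - 1) * δ) = x - x0 by ring, abs_lt]
                constructor <;> linarith) ⟨m, hm⟩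
          exact ⟨⟨m, by rw [← this]; exact hm⟩, Or.inl (by linarith)⟩
        · rw [hflr] at hm
          have h3 : x + (y - j) - (j - 1) * δ = ((m - 1 : ℤ) : ℝ) := by
            push_cast
            rw [← hm]
            ring
          have := h2 (x + (y - j) - (j - 1) * δ)
            (by rw [show x + (y - j) - (j - 1) * δ - (x0 - (j - 1) * δ) = (x - x0) + (y - j) by ring,
                  abs_lt]
                constructor <;> linarith) ⟨m - 1, h3⟩
          exact ⟨⟨m - 1, by rw [← this]; exact h3⟩, Or.inr (by linarith)⟩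
      obtain ⟨⟨m, hm⟩, hcase⟩ := key
      rw [potT_row _ _ _ _ _ _ hni, hflr, potT_up b c τ W x0 hb hτ hW j m hm]
      rcases edge_cases b c g τ W (j - 1) x y x0 j hc hg hcase with h | h
      · exact Or.inl h
      · exact Or.inr (Or.inr h)
    · -- on the line
      right; left
      refine ⟨heq, ?_⟩
      rw [heq, potT_int, potT_int, add_sub_add_left_eq_sub]
      have h3 := Graph.psi_lip b τ hb hτ (x - j * δ) (x0 - j * δ)
      rwa [show x - j * δ - (x0 - j * δ) = x - x0 by ring] at h3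
    · -- above
      have hfl : ⌊y⌋ = j := by
        rw [Int.floor_eq_iff]
        constructor <;> linarith
      have hni : ¬ ∃ m : ℤ, y = m := by
        rintro ⟨m, hm⟩
        rw [hm, Int.floor_intCast] at hfl
        rw [hm, hfl] at hgt
        exact lt_irrefl _ hgt
      have key : (∃ m : ℤ, x0 - j * δ = m) ∧ (x = x0 ∨ x - x0 = -(y - j)) := by
        rcases hG with h | ⟨m, hm⟩ | ⟨m, hm⟩
        · exact absurd h hni
        · rw [hfl] at hm
          have := h1 (x - j * δ)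
            (by rw [show x - j * δ - (x0 - j * δ) = x - x0 by ring, abs_lt]
                constructor <;> linarith) ⟨m, hm⟩
          exact ⟨⟨m, by rw [← this]; exact hm⟩, Or.inl (by linarith)⟩
        · rw [hfl] at hm
          have h3 : x + (y - j) - j * δ = m := by
            rw [← hm]
            ring
          have := h1 (x + (y - j) - j * δ)
            (by rw [show x + (y - j) - j * δ - (x0 - j * δ) = (x - x0) + (y - j) by ring,
                  abs_lt]
                constructor <;> linarith) ⟨m, h3⟩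
          exact ⟨⟨m, by rw [← this]; exact h3⟩, Or.inr (by linarith)⟩
      obtain ⟨⟨m, hm⟩, hcase⟩ := key
      rw [potT_row _ _ _ _ _ _ hni, hfl, potT_low b c τ W x0 hb hτ j m hm]
      rcases edge_cases b c g τ W j x y x0 j hc hg hcase with h | h
      · exact Or.inl h
      · exact Or.inr (Or.inr h)
  · -- inside a row
    obtain ⟨ε1, hε1, h1⟩ := Graph.int_near (x0 - ⌊y0⌋ * δ)
    obtain ⟨ε2, hε2, h2⟩ := Graph.int_near (x0 - ⌊y0⌋ * δ + (y0 - ⌊y0⌋))
    have hf1 : 0 < y0 - ⌊y0⌋ := by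
      rcases eq_or_lt_of_le (Int.floor_le y0) with h | h
      · exact absurd ⟨⌊y0⌋, h.symm⟩ hy0
      · linarith
    have hf2 : 0 < ⌊y0⌋ + 1 - y0 := by linarith [Int.lt_floor_add_one y0]
    refine ⟨min (min ε1 (ε2 / 2)) (min (y0 - ⌊y0⌋) (⌊y0⌋ + 1 - y0)),
      lt_min (lt_min hε1 (by linarith)) (lt_min hf1 hf2), ?_⟩
    intro x y hx hy hG
    rw [lt_min_iff, lt_min_iff, lt_min_iff] at hx hy
    have hxb := abs_lt.1 hx.1.2
    have hyb := abs_lt.1 hy.1.2
    have hlow : (⌊y0⌋ : ℝ) < y := by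
      have := (abs_lt.1 hy.2.1).1
      linarith
    have hup : y < ⌊y0⌋ + 1 := by
      have := (abs_lt.1 hy.2.2).2
      linarith
    have hfl : ⌊y⌋ = ⌊y0⌋ := by
      rw [Int.floor_eq_iff]
      exact ⟨hlow.le, hup⟩
    have hni : ¬ ∃ m : ℤ, y = m := by
      rintro ⟨m, hm⟩
      rw [hm, Int.floor_intCast] at hfl
      rw [hm, hfl] at hlow
      exact lt_irrefl _ hlow
    have hcase : x = x0 ∨ x - x0 = -(y - y0) := by
      rcases hG with h | ⟨m, hm⟩ | ⟨m, hm⟩
      · exact absurd h hni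
      · rw [hfl] at hm
        have := h1 (x - ⌊y0⌋ * δ)
          (by rw [show x - ⌊y0⌋ * δ - (x0 - ⌊y0⌋ * δ) = x - x0 by ring]; exact hx.1.1) ⟨m, hm⟩
        exact Or.inl (by linarith)
      · rw [hfl] at hm
        have := h2 (x - ⌊y0⌋ * δ + (y - ⌊y0⌋))
          (by rw [show x - ⌊y0⌋ * δ + (y - ⌊y0⌋) - (x0 - ⌊y0⌋ * δ + (y0 - ⌊y0⌋)) =
                (x - x0) + (y - y0) by ring, abs_lt]
              constructor <;> linarith) ⟨m, hm⟩
        exact Or.inr (by linarith)
    rw [potT_row _ _ _ _ _ _ hni, hfl, potT_row _ _ _ _ _ _ hy0]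
    rcases edge_cases b c g τ W ⌊y0⌋ x y x0 y0 hc hg hcase with h | h
    · exact Or.inl h
    · exact Or.inr (Or.inr h)

theorem potT_bdd (b c τ W : ℝ) (hb : 0 ≤ b) (hc : 0 ≤ c) (hτ : |τ| ≤ 1) (x y : ℝ) :
    |potT b c τ W x y - (x * (b * τ) + y * W)| ≤ |W| + c + 2 * b := by
  by_cases hy : ∃ m : ℤ, y = m
  · unfold potT
    rw [if_pos hy]
    exact Graph.pot_bdd b c τ W hb hc hτ x y
  · rw [potT_row _ _ _ _ _ _ hy]
    have h2 : |y - ⌊y⌋| ≤ 1 := by
      rw [abs_of_nonneg (by linarith [Int.floor_le y])]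
      linarith [Int.lt_floor_add_one y]
    have e : row b c τ W ⌊y⌋ x y - (x * (b * τ) + y * W) =
        -(W * (y - ⌊y⌋)) + c * (y - ⌊y⌋) := by
      unfold row
      ring
    rw [e]
    have h3 : |-(W * (y - ⌊y⌋))| ≤ |W| := by
      rw [abs_neg, abs_mul]
      calc |W| * |y - ⌊y⌋| ≤ |W| * 1 := mul_le_mul_of_nonneg_left h2 (abs_nonneg _)
        _ = |W| := mul_one _
    have h4 : |c * (y - ⌊y⌋)| ≤ c := by
      rw [abs_mul, abs_of_nonneg hc]
      calc c * |y - ⌊y⌋| ≤ c * 1 := mul_le_mul_of_nonneg_left h2 hc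
        _ = c := mul_one _
    calc _ ≤ |-(W * (y - ⌊y⌋))| + |c * (y - ⌊y⌋)| := abs_add_le _ _
      _ ≤ |W| + c + 2 * b := by linarith

theorem triGraph_proof : Stmt_TriGraph := by
  intro e f w τ hef hτ hgap hwe hwf
  obtain ⟨X, Y, hX, hY, hXY, huniq⟩ := Graph.exists_coord e f hef
  set b := ‖e‖ with hb
  set c := ‖f‖ with hc
  set g := ‖f - e‖ with hg
  have hb0 : 0 ≤ b := norm_nonneg _
  have hc0 : 0 ≤ c := norm_nonneg _
  set W : ℝ := c + b * (1 - τ ^ 2) / 2 with hW
  refine ⟨2 * (|W| + c + 2 * b), ?_⟩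
  intro γ t1 t2 h12 hγ hG
  let H : ℝ → ℝ := fun t => potT b c τ W (X (γ t)) (Y (γ t))
  have hGt : ∀ t ∈ Icc t1 t2, OnT ((1 + τ) / 2) (X (γ t)) (Y (γ t)) :=
    fun t ht => hG t ht _ _ (hXY (γ t))
  have hloc : ∀ t ∈ Icc t1 t2, ∃ ε > 0, ∀ s ∈ Icc t1 t2, |s - t| < ε →
      edist (H s) (H t) ≤ edist (γ s) (γ t) := by
    intro t ht
    obtain ⟨ε, hε, hl⟩ := potT_local b c g τ W hb0 hc0 hτ hgap hW (X (γ t)) (Y (γ t))
    have hcX : ContinuousWithinAt (fun s => X (γ s)) (Icc t1 t2) t :=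
      hX.continuousAt.comp_continuousWithinAt (hγ t ht)
    have hcY : ContinuousWithinAt (fun s => Y (γ s)) (Icc t1 t2) t :=
      hY.continuousAt.comp_continuousWithinAt (hγ t ht)
    rw [Metric.continuousWithinAt_iff] at hcX hcY
    obtain ⟨ε1, hε1, h1⟩ := hcX ε hε
    obtain ⟨ε2, hε2, h2⟩ := hcY ε hε
    refine ⟨min ε1 ε2, lt_min hε1 hε2, ?_⟩
    intro s hs hst
    rw [lt_min_iff] at hst
    have hx : |X (γ s) - X (γ t)| < ε := by
      have := h1 hs (by rw [Real.dist_eq]; exact hst.1)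
      rwa [Real.dist_eq] at this
    have hy : |Y (γ s) - Y (γ t)| < ε := by
      have := h2 hs (by rw [Real.dist_eq]; exact hst.2)
      rwa [Real.dist_eq] at this
    have hdist : edist (H s) (H t) = ENNReal.ofReal |H s - H t| := by
      rw [edist_dist, Real.dist_eq]
    rw [hdist, edist_dist, dist_eq_norm]
    apply ENNReal.ofReal_le_ofReal
    rcases hl _ _ hx hy (hGt s hs) with ⟨hxx, hle⟩ | ⟨hyy, hle⟩ | ⟨hxy, hle⟩
    · have e1 : γ s - γ t = (Y (γ s) - Y (γ t)) • f := by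
        conv_lhs => rw [hXY (γ s), hXY (γ t)]
        rw [hxx, sub_smul]
        abel
      rw [e1, norm_smul, Real.norm_eq_abs, mul_comm]
      exact hle
    · have e1 : γ s - γ t = (X (γ s) - X (γ t)) • e := by
        conv_lhs => rw [hXY (γ s), hXY (γ t)]
        rw [hyy, sub_smul]
        abel
      rw [e1, norm_smul, Real.norm_eq_abs, mul_comm]
      exact hle
    · have e1 : γ s - γ t = (Y (γ s) - Y (γ t)) • (f - e) := by
        have e2 : γ s - γ t = (X (γ s) - X (γ t)) • e + (Y (γ s) - Y (γ t)) • f := by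
          conv_lhs => rw [hXY (γ s), hXY (γ t)]
          rw [sub_smul, sub_smul]
          abel
        rw [e2, hxy, neg_smul, smul_sub]
        abel
      rw [e1, norm_smul, Real.norm_eq_abs, mul_comm]
      exact hle
  have hmain := Graph.local_to_global γ H t1 t2 h12 hloc
  refine le_trans ?_ hmain
  rw [edist_dist, Real.dist_eq]
  apply ENNReal.ofReal_le_ofReal
  have hw : ∀ t, ⟪w, γ t⟫ = X (γ t) * (b * τ) + Y (γ t) * W := by
    intro t
    conv_lhs => rw [hXY (γ t)]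
    rw [inner_add_right, real_inner_smul_right, real_inner_smul_right, hwe, hwf]
  have hb2 := potT_bdd b c τ W hb0 hc0 hτ (X (γ t2)) (Y (γ t2))
  have hb1 := potT_bdd b c τ W hb0 hc0 hτ (X (γ t1)) (Y (γ t1))
  rw [inner_sub_right, hw, hw]
  have h3 : H t2 - H t1 ≤ |H t2 - H t1| := le_abs_self _
  have h4 := (abs_le.1 hb2).1
  have h5 := (abs_le.1 hb1).2
  have h6 : H t2 = potT b c τ W (X (γ t2)) (Y (γ t2)) := rfl
  have h7 : H t1 = potT b c τ W (X (γ t1)) (Y (γ t1)) := rfl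
  rw [← h6] at h4
  rw [← h7] at h5
  linarith

end Pool.Agent.LFT53
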