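import Pool.Agent.LFT.Tile
import Pool.Agent.LFT53.TriGraph

/-!
# Stmt_TriTile (MP_9c589f_co): layers cut out of the sheared row tiling by triangles
-/

namespace Pool.Agent.LFT53

open MeasureTheory Set Filter Topology Pool.Agent.LFT
open scoped RealInnerProductSpace ENNReal

/-- the lower triangle of row `j` -/
def lowT (e f : E) (δ : ℝ) (i j : ℤ) : Set E :=
  Tri (((i : ℝ) + j * δ) • e + (j : ℝ) • f) e f

/-- the upper triangle of row `j` -/
def upT (e f : E) (δ : ℝ) (i j : ℤ) : Set E :=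
  Tri (((i : ℝ) + j * δ + 1) • e + ((j : ℝ) + 1) • f) (-e) (-f)

theorem tri_convex (z e f : E) : Convex ℝ (Tri z e f) := by
  rintro _ ⟨s, t, hs, ht, hst, rfl⟩ _ ⟨s', t', hs', ht', hst', rfl⟩ a b ha hb hab
  refine ⟨a * s + b * s', a * t + b * t', ?_, ?_, ?_, ?_⟩
  · positivity
  · positivity
  · nlinarith
  · have hb' : b = 1 - a := by linarith
    rw [hb']
    module

theorem tri_similar (z e f : E) : IsSimilar (Tri 0 e f) (Tri z e f) := by
  refine ⟨1, LinearIsometryEquiv.refl ℝ E, z, one_pos, ?_⟩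
  ext p
  constructor
  · rintro ⟨s, t, hs, ht, hst, rfl⟩
    refine ⟨0 + s • e + t • f, ⟨s, t, hs, ht, hst, rfl⟩, ?_⟩
    change (1 : ℝ) • (0 + s • e + t • f) + z = _
    module
  · rintro ⟨_, ⟨s, t, hs, ht, hst, rfl⟩, rfl⟩
    refine ⟨s, t, hs, ht, hst, ?_⟩
    change (1 : ℝ) • (0 + s • e + t • f) + z = _
    module

theorem tri_similar_neg (z e f : E) : IsSimilar (Tri 0 e f) (Tri z (-e) (-f)) := by
  refine ⟨1, LinearIsometryEquiv.neg ℝ, z, one_pos, ?_⟩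
  ext p
  constructor
  · rintro ⟨s, t, hs, ht, hst, rfl⟩
    refine ⟨0 + s • e + t • f, ⟨s, t, hs, ht, hst, rfl⟩, ?_⟩
    simp only [LinearIsometryEquiv.coe_neg]
    module
  · rintro ⟨_, ⟨s, t, hs, ht, hst, rfl⟩, rfl⟩
    refine ⟨s, t, hs, ht, hst, ?_⟩
    simp only [LinearIsometryEquiv.coe_neg]
    module

section
variable (e f : E) (X Y : E → ℝ) (hX : Continuous X) (hY : Continuous Y)
  (hXY : ∀ p, p = X p • e + Y p • f)
  (huniq : ∀ p x y, p = x • e + y • f → x = X p ∧ y = Y p)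

include hXY huniq in
theorem mem_lowT (δ : ℝ) (i j : ℤ) (p : E) : p ∈ lowT e f δ i j ↔
    ((i : ℝ) + j * δ ≤ X p ∧ (j : ℝ) ≤ Y p) ∧ X p + Y p ≤ i + j * δ + j + 1 := by
  constructor
  · rintro ⟨s, t, hs, ht, hst, hp⟩
    have hp' : p = ((i : ℝ) + j * δ + s) • e + ((j : ℝ) + t) • f := by
      rw [hp]; module
    obtain ⟨h1, h2⟩ := huniq _ _ _ hp'
    rw [← h1, ← h2]
    refine ⟨⟨?_, ?_⟩, ?_⟩ <;> linarith
  · rintro ⟨⟨h1, h2⟩, h3⟩
    refine ⟨X p - (i + j * δ), Y p - j, ?_, ?_, ?_, ?_⟩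
    · linarith
    · linarith
    · linarith
    · conv_lhs => rw [hXY p]
      module

include hXY huniq in
theorem mem_upT (δ : ℝ) (i j : ℤ) (p : E) : p ∈ upT e f δ i j ↔
    (X p ≤ i + j * δ + 1 ∧ Y p ≤ j + 1) ∧ (i : ℝ) + j * δ + j + 1 ≤ X p + Y p := by
  constructor
  · rintro ⟨s, t, hs, ht, hst, hp⟩
    have hp' : p = ((i : ℝ) + j * δ + 1 - s) • e + ((j : ℝ) + 1 - t) • f := by
      rw [hp]; module
    obtain ⟨h1, h2⟩ := huniq _ _ _ hp'
    rw [← h1, ← h2]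
    refine ⟨⟨?_, ?_⟩, ?_⟩ <;> linarith
  · rintro ⟨⟨h1, h2⟩, h3⟩
    refine ⟨(i + j * δ + 1) - X p, (j + 1) - Y p, ?_, ?_, ?_, ?_⟩
    · linarith
    · linarith
    · linarith
    · conv_lhs => rw [hXY p]
      module

include hX hY hXY huniq in
theorem open_X : IsOpenMap X :=
  isOpenMap_fst.comp (Tile.homeo e f X Y hX hY hXY huniq).isOpenMap

include hX hY hXY huniq in
theorem open_Y : IsOpenMap Y :=
  isOpenMap_snd.comp (Tile.homeo e f X Y hX hY hXY huniq).isOpenMap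

include hX hY hXY huniq in
theorem open_S : IsOpenMap (fun p => X p + Y p) := by
  have hXY' : ∀ p, p = (fun p => X p + Y p) p • e + Y p • (f - e) := by
    intro p
    conv_lhs => rw [hXY p]
    module
  have huniq' : ∀ p x y, p = x • e + y • (f - e) → x = (fun p => X p + Y p) p ∧ y = Y p := by
    intro p x y hp
    have hp' : p = (x - y) • e + y • f := by rw [hp]; module
    obtain ⟨h1, h2⟩ := huniq _ _ _ hp'
    refine ⟨?_, h2⟩
    simp only
    rw [← h1, ← h2]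
    ring
  exact isOpenMap_fst.comp
    (Tile.homeo e (f - e) (fun p => X p + Y p) Y (hX.add hY) hY hXY' huniq').isOpenMap

theorem interior_ge (g : E → ℝ) (hg : Continuous g) (ho : IsOpenMap g) (a : ℝ) :
    interior {p | a ≤ g p} = {p | a < g p} := by
  have h := ho.preimage_interior_eq_interior_preimage hg (Ici a)
  rw [interior_Ici] at h
  exact h.symm

theorem interior_le (g : E → ℝ) (hg : Continuous g) (ho : IsOpenMap g) (a : ℝ) :
    interior {p | g p ≤ a} = {p | g p < a} := by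
  have h := ho.preimage_interior_eq_interior_preimage hg (Iic a)
  rw [interior_Iic] at h
  exact h.symm

include hX hY hXY huniq in
theorem mem_interior_lowT (δ : ℝ) (i j : ℤ) (p : E) : p ∈ interior (lowT e f δ i j) ↔
    ((i : ℝ) + j * δ < X p ∧ (j : ℝ) < Y p) ∧ X p + Y p < i + j * δ + j + 1 := by
  have h1 : lowT e f δ i j = ({p | (i : ℝ) + j * δ ≤ X p} ∩ {p | (j : ℝ) ≤ Y p}) ∩
      {p | (fun p => X p + Y p) p ≤ i + j * δ + j + 1} := by
    ext q
    rw [mem_lowT e f X Y hXY huniq]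
    exact Iff.rfl
  rw [h1, interior_inter, interior_inter,
    interior_ge X hX (open_X e f X Y hX hY hXY huniq),
    interior_ge Y hY (open_Y e f X Y hX hY hXY huniq),
    interior_le (fun p => X p + Y p) (hX.add hY) (open_S e f X Y hX hY hXY huniq)]
  exact Iff.rfl

include hX hY hXY huniq in
theorem mem_interior_upT (δ : ℝ) (i j : ℤ) (p : E) : p ∈ interior (upT e f δ i j) ↔
    (X p < i + j * δ + 1 ∧ Y p < j + 1) ∧ (i : ℝ) + j * δ + j + 1 < X p + Y p := by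
  have h1 : upT e f δ i j = ({p | X p ≤ (i : ℝ) + j * δ + 1} ∩ {p | Y p ≤ (j : ℝ) + 1}) ∩
      {p | (i : ℝ) + j * δ + j + 1 ≤ (fun p => X p + Y p) p} := by
    ext q
    rw [mem_upT e f X Y hXY huniq]
    exact Iff.rfl
  rw [h1, interior_inter, interior_inter,
    interior_le X hX (open_X e f X Y hX hY hXY huniq),
    interior_le Y hY (open_Y e f X Y hX hY hXY huniq),
    interior_ge (fun p => X p + Y p) (hX.add hY) (open_S e f X Y hX hY hXY huniq)]
  exact Iff.rfl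

include hX hY hXY huniq in
theorem lowT_subset (δ : ℝ) (i j : ℤ) : lowT e f δ i j ⊆ Tile.tile e f δ i j := by
  intro p hp
  rw [mem_lowT e f X Y hXY huniq] at hp
  rw [Tile.mem_tile e f X Y hX hY hXY huniq]
  obtain ⟨⟨h1, h2⟩, h3⟩ := hp
  refine ⟨⟨?_, ?_⟩, ?_, ?_⟩ <;> linarith

include hX hY hXY huniq in
theorem upT_subset (δ : ℝ) (i j : ℤ) : upT e f δ i j ⊆ Tile.tile e f δ i j := by
  intro p hp
  rw [mem_upT e f X Y hXY huniq] at hp
  rw [Tile.mem_tile e f X Y hX hY hXY huniq]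
  obtain ⟨⟨h1, h2⟩, h3⟩ := hp
  refine ⟨⟨?_, ?_⟩, ?_, ?_⟩ <;> linarith

include hX hY hXY huniq in
theorem lowT_compact (δ : ℝ) (i j : ℤ) : IsCompact (lowT e f δ i j) := by
  refine (Tile.tile_compact e f X Y hX hY hXY huniq δ i j).of_isClosed_subset ?_
    (lowT_subset e f X Y hX hY hXY huniq δ i j)
  have h1 : lowT e f δ i j = ({p | (i : ℝ) + j * δ ≤ X p} ∩ {p | (j : ℝ) ≤ Y p}) ∩
      {p | X p + Y p ≤ i + j * δ + j + 1} := by
    ext q
    rw [mem_lowT e f X Y hXY huniq]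
    exact Iff.rfl
  rw [h1]
  exact ((isClosed_le continuous_const hX).inter (isClosed_le continuous_const hY)).inter
    (isClosed_le (hX.add hY) continuous_const)

include hX hY hXY huniq in
theorem upT_compact (δ : ℝ) (i j : ℤ) : IsCompact (upT e f δ i j) := by
  refine (Tile.tile_compact e f X Y hX hY hXY huniq δ i j).of_isClosed_subset ?_
    (upT_subset e f X Y hX hY hXY huniq δ i j)
  have h1 : upT e f δ i j = ({p | X p ≤ (i : ℝ) + j * δ + 1} ∩ {p | Y p ≤ (j : ℝ) + 1}) ∩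
      {p | (i : ℝ) + j * δ + j + 1 ≤ X p + Y p} := by
    ext q
    rw [mem_upT e f X Y hXY huniq]
    exact Iff.rfl
  rw [h1]
  exact ((isClosed_le hX continuous_const).inter (isClosed_le hY continuous_const)).inter
    (isClosed_le continuous_const (hX.add hY))

include hX hY hXY huniq in
theorem lowT_interior_nonempty (δ : ℝ) (i j : ℤ) : (interior (lowT e f δ i j)).Nonempty := by
  refine ⟨((i : ℝ) + j * δ + 1 / 3) • e + ((j : ℝ) + 1 / 3) • f, ?_⟩
  rw [mem_interior_lowT e f X Y hX hY hXY huniq]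
  obtain ⟨h1, h2⟩ := huniq _ _ _
    (rfl : ((i : ℝ) + j * δ + 1 / 3) • e + ((j : ℝ) + 1 / 3) • f = _)
  rw [← h1, ← h2]
  refine ⟨⟨?_, ?_⟩, ?_⟩ <;> linarith

include hX hY hXY huniq in
theorem upT_interior_nonempty (δ : ℝ) (i j : ℤ) : (interior (upT e f δ i j)).Nonempty := by
  refine ⟨((i : ℝ) + j * δ + 2 / 3) • e + ((j : ℝ) + 2 / 3) • f, ?_⟩
  rw [mem_interior_upT e f X Y hX hY hXY huniq]
  obtain ⟨h1, h2⟩ := huniq _ _ _
    (rfl : ((i : ℝ) + j * δ + 2 / 3) • e + ((j : ℝ) + 2 / 3) • f = _)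
  rw [← h1, ← h2]
  refine ⟨⟨?_, ?_⟩, ?_⟩ <;> linarith

/-- the triangles of both kinds -/
def IsT (e f : E) (δ : ℝ) (K : Set E) : Prop :=
  ∃ i j : ℤ, K = lowT e f δ i j ∨ K = upT e f δ i j

theorem idx_eq (δ x y : ℝ) (i j i' j' : ℤ)
    (h1 : (i : ℝ) + j * δ < x ∧ x < i + j * δ + 1) (h2 : (j : ℝ) < y ∧ y < j + 1)
    (h3 : (i' : ℝ) + j' * δ < x ∧ x < i' + j' * δ + 1) (h4 : (j' : ℝ) < y ∧ y < j' + 1) :
    i = i' ∧ j = j' := by
  have h1' : (j : ℝ) < j' + 1 := by linarith [h2.1, h4.2]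
  have h2' : (j' : ℝ) < j + 1 := by linarith [h2.2, h4.1]
  have h3' : j < j' + 1 := by exact_mod_cast h1'
  have h4' : j' < j + 1 := by exact_mod_cast h2'
  have hj : j = j' := by omega
  subst hj
  have h5 : (i : ℝ) < i' + 1 := by linarith [h1.1, h3.2]
  have h6 : (i' : ℝ) < i + 1 := by linarith [h1.2, h3.1]
  have h7 : i < i' + 1 := by exact_mod_cast h5
  have h8 : i' < i + 1 := by exact_mod_cast h6
  exact ⟨by omega, rfl⟩

include hX hY hXY huniq in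
theorem isT_disjoint (δ : ℝ) (K K' : Set E) (hK : IsT e f δ K) (hK' : IsT e f δ K')
    (hne : K ≠ K') : Disjoint (interior K) (interior K') := by
  rw [Set.disjoint_left]
  intro p hp hp'
  obtain ⟨i, j, hij⟩ := hK
  obtain ⟨i', j', hij'⟩ := hK'
  rcases hij with rfl | rfl <;> rcases hij' with rfl | rfl
  · rw [mem_interior_lowT e f X Y hX hY hXY huniq] at hp hp'
    obtain ⟨⟨a1, a2⟩, a3⟩ := hp
    obtain ⟨⟨b1, b2⟩, b3⟩ := hp'
    obtain ⟨hi, hj⟩ := idx_eq δ (X p) (Y p) i j i' j' ⟨a1, by linarith⟩ ⟨a2, by linarith⟩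
      ⟨b1, by linarith⟩ ⟨b2, by linarith⟩
    subst hi
    subst hj
    exact hne rfl
  · rw [mem_interior_lowT e f X Y hX hY hXY huniq] at hp
    rw [mem_interior_upT e f X Y hX hY hXY huniq] at hp'
    obtain ⟨⟨a1, a2⟩, a3⟩ := hp
    obtain ⟨⟨b1, b2⟩, b3⟩ := hp'
    obtain ⟨hi, hj⟩ := idx_eq δ (X p) (Y p) i j i' j' ⟨a1, by linarith⟩ ⟨a2, by linarith⟩
      ⟨by linarith, b1⟩ ⟨by linarith, b2⟩
    subst hi
    subst hj
    linarith
  · rw [mem_interior_upT e f X Y hX hY hXY huniq] at hp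
    rw [mem_interior_lowT e f X Y hX hY hXY huniq] at hp'
    obtain ⟨⟨a1, a2⟩, a3⟩ := hp
    obtain ⟨⟨b1, b2⟩, b3⟩ := hp'
    obtain ⟨hi, hj⟩ := idx_eq δ (X p) (Y p) i j i' j' ⟨by linarith, a1⟩ ⟨by linarith, a2⟩
      ⟨b1, by linarith⟩ ⟨b2, by linarith⟩
    subst hi
    subst hj
    linarith
  · rw [mem_interior_upT e f X Y hX hY hXY huniq] at hp hp'
    obtain ⟨⟨a1, a2⟩, a3⟩ := hp
    obtain ⟨⟨b1, b2⟩, b3⟩ := hp'
    obtain ⟨hi, hj⟩ := idx_eq δ (X p) (Y p) i j i' j' ⟨by linarith, a1⟩ ⟨by linarith, a2⟩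
      ⟨by linarith, b1⟩ ⟨by linarith, b2⟩
    subst hi
    subst hj
    exact hne rfl

include hX hY hXY huniq in
theorem idx_fin (δ R : ℝ) :
    {z : ℤ × ℤ | (Tile.tile e f δ z.1 z.2 ∩ Metric.closedBall 0 R).Nonempty}.Finite := by
  have hc : IsCompact (Metric.closedBall (0 : E) R) := isCompact_closedBall 0 R
  obtain ⟨B1, hB1⟩ := hc.exists_bound_of_continuousOn hX.continuousOn
  obtain ⟨B2, hB2⟩ := hc.exists_bound_of_continuousOn hY.continuousOn
  set M : ℤ := ⌈|B2|⌉ + 1 with hM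
  set N : ℤ := ⌈|B1| + M * |δ|⌉ + 1 with hN
  have hfin : ((Icc (-N) N ×ˢ Icc (-M) M : Set (ℤ × ℤ))).Finite :=
    (finite_Icc _ _).prod (finite_Icc _ _)
  refine hfin.subset ?_
  rintro ⟨i, j⟩ ⟨p, hp, hpR⟩
  simp only at hp
  have hx := hB1 p hpR
  have hy := hB2 p hpR
  rw [Real.norm_eq_abs, abs_le] at hx hy
  rw [Tile.mem_tile e f X Y hX hY hXY huniq] at hp
  have hB2' : B2 ≤ |B2| := le_abs_self _
  have hB1' : B1 ≤ |B1| := le_abs_self _
  have hMr : |B2| + 1 ≤ M := by rw [hM]; push_cast; linarith [Int.le_ceil |B2|]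
  have hNr : |B1| + M * |δ| + 1 ≤ N := by
    rw [hN]; push_cast; linarith [Int.le_ceil (|B1| + M * |δ|)]
  have hj1 : -(M : ℝ) ≤ j := by linarith [hp.2.2, hy.1]
  have hj2 : (j : ℝ) ≤ M := by linarith [hp.2.1, hy.2]
  have hjd : |(j : ℝ) * δ| ≤ M * |δ| := by
    rw [abs_mul]
    exact mul_le_mul_of_nonneg_right (abs_le.2 ⟨hj1, hj2⟩) (abs_nonneg _)
  have hjd' := abs_le.1 hjd
  have h1 : -(N : ℝ) ≤ i := by linarith [hp.1.2, hx.1, hjd'.2]
  have h2 : (i : ℝ) ≤ N := by linarith [hp.1.1, hx.2, hjd'.1]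
  exact ⟨⟨by exact_mod_cast h1, by exact_mod_cast h2⟩,
    ⟨by exact_mod_cast hj1, by exact_mod_cast hj2⟩⟩

include hX hY hXY huniq in
theorem isT_locFin (δ R : ℝ) :
    {K : Set E | IsT e f δ K ∧ (K ∩ Metric.closedBall 0 R).Nonempty}.Finite := by
  have hF := idx_fin e f X Y hX hY hXY huniq δ R
  refine ((hF.image (fun z : ℤ × ℤ => lowT e f δ z.1 z.2)).union
    (hF.image (fun z : ℤ × ℤ => upT e f δ z.1 z.2))).subset ?_
  rintro K ⟨⟨i, j, hK | hK⟩, hne⟩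
  · subst hK
    exact Or.inl ⟨(i, j), hne.mono (inter_subset_inter_left _
      (lowT_subset e f X Y hX hY hXY huniq δ i j)), rfl⟩
  · subst hK
    exact Or.inr ⟨(i, j), hne.mono (inter_subset_inter_left _
      (upT_subset e f X Y hX hY hXY huniq δ i j)), rfl⟩

include hX hY hXY huniq in
theorem isT_diam (δ : ℝ) (K : Set E) (hK : IsT e f δ K) (p q : E) (hp : p ∈ K) (hq : q ∈ K) :
    ‖p - q‖ ≤ ‖e‖ + ‖f‖ := by
  obtain ⟨i, j, hK | hK⟩ := hK
  · subst hK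
    exact Tile.para_diam _ e f p q (lowT_subset e f X Y hX hY hXY huniq δ i j hp)
      (lowT_subset e f X Y hX hY hXY huniq δ i j hq)
  · subst hK
    exact Tile.para_diam _ e f p q (upT_subset e f X Y hX hY hXY huniq δ i j hp)
      (upT_subset e f X Y hX hY hXY huniq δ i j hq)

include hX hY hXY huniq in
/-- a point off the graph lies in the interior of a triangle -/
theorem exists_isT (δ x y : ℝ) (p : E) (hxy : p = x • e + y • f)
    (hc1 : ∀ m : ℤ, y ≠ m) (hc2 : ∀ m : ℤ, x - ⌊y⌋ * δ ≠ m)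
    (hc3 : ∀ m : ℤ, x - ⌊y⌋ * δ + (y - ⌊y⌋) ≠ m) :
    ∃ K : Set E, IsT e f δ K ∧ p ∈ interior K := by
  obtain ⟨hx, hy⟩ := huniq _ _ _ hxy
  set j := ⌊y⌋ with hj
  set i := ⌊x - j * δ⌋ with hi
  have a1 : (j : ℝ) < y := lt_of_le_of_ne (Int.floor_le y) (fun h => hc1 j h.symm)
  have a2 : y < j + 1 := Int.lt_floor_add_one y
  have a3 : (i : ℝ) < x - j * δ := lt_of_le_of_ne (Int.floor_le _) (fun h => hc2 i h.symm)
  have a4 : x - j * δ < i + 1 := Int.lt_floor_add_one _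
  have a5 : x - j * δ + (y - j) ≠ ((i + 1 : ℤ) : ℝ) := hc3 (i + 1)
  push_cast at a5
  rcases lt_or_gt_of_ne a5 with h | h
  · refine ⟨lowT e f δ i j, ⟨i, j, Or.inl rfl⟩, ?_⟩
    rw [mem_interior_lowT e f X Y hX hY hXY huniq, ← hx, ← hy]
    exact ⟨⟨by linarith, by linarith⟩, by linarith⟩
  · refine ⟨upT e f δ i j, ⟨i, j, Or.inr rfl⟩, ?_⟩
    rw [mem_interior_upT e f X Y hX hY hXY huniq, ← hx, ← hy]
    exact ⟨⟨by linarith, by linarith⟩, by linarith⟩

end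

theorem triTile_proof : Stmt_TriTile := by
  intro e f w τ ρ hef hτ hfe hwe hwf hw0 hρ
  obtain ⟨κ, hκ⟩ := triGraph_proof e f w τ hef hτ hfe hwe hwf
  obtain ⟨X, Y, hX, hY, hXY, huniq⟩ := Graph.exists_coord e f hef
  set δ := (1 + τ) / 2 with hδ
  set D := ‖e‖ + ‖f‖ with hD
  have hD0 : 0 ≤ D := by positivity
  set n : E := (‖w‖)⁻¹ • w with hn
  have hwn : ‖w‖ ≠ 0 := norm_ne_zero_iff.2 hw0
  have hwpos : 0 < ‖w‖ := norm_pos_iff.2 hw0
  have hn1 : ‖n‖ = 1 := by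
    rw [hn, norm_smul, norm_inv, norm_norm, inv_mul_cancel₀ hwn]
  have hwv : ∀ v : E, ⟪w, v⟫ = ‖w‖ * ⟪n, v⟫ := by
    intro v
    rw [hn, real_inner_smul_left, ← mul_assoc, mul_inv_cancel₀ hwn, one_mul]
  obtain ⟨d, hd1, hd2⟩ : ∃ d : ℝ, 2 * D + 1 ≤ d ∧ ρ * d ≤ ‖w‖ * (d - 2 * D) - κ := by
    have hpos : 0 < ‖w‖ - ρ := by linarith
    refine ⟨max (2 * D + 1) ((κ + 2 * D * ‖w‖) / (‖w‖ - ρ)), le_max_left _ _, ?_⟩
    have h := le_max_right (2 * D + 1) ((κ + 2 * D * ‖w‖) / (‖w‖ - ρ))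
    set d := max (2 * D + 1) ((κ + 2 * D * ‖w‖) / (‖w‖ - ρ)) with hd
    rw [div_le_iff₀ hpos] at h
    nlinarith
  set 𝒯 : Set (Set E) := {K | IsT e f δ K ∧
    ∀ p ∈ K, 0 ≤ ⟪n, p⟫ ∧ ⟪n, p⟫ ≤ 0 + d} with h𝒯
  refine ⟨𝒯, n, d, ?_, ?_, ?_⟩
  · constructor
    · exact hn1
    · linarith
    · rintro K ⟨⟨i, j, hK | hK⟩, _⟩
      · subst hK
        exact ⟨lowT_compact e f X Y hX hY hXY huniq δ i j, tri_convex _ _ _,
          lowT_interior_nonempty e f X Y hX hY hXY huniq δ i j⟩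
      · subst hK
        exact ⟨upT_compact e f X Y hX hY hXY huniq δ i j, tri_convex _ _ _,
          upT_interior_nonempty e f X Y hX hY hXY huniq δ i j⟩
    · rintro K ⟨hK, _⟩ K' ⟨hK', _⟩ hne
      exact isT_disjoint e f X Y hX hY hXY huniq δ K K' hK hK' hne
    · rintro K ⟨_, hK⟩ p hp
      exact hK p hp
    · intro R
      refine (isT_locFin e f X Y hX hY hXY huniq δ R).subset ?_
      rintro K ⟨⟨hK, _⟩, hne⟩
      exact ⟨hK, hne⟩
  · rintro K ⟨⟨i, j, hK | hK⟩, _⟩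
    · subst hK
      exact tri_similar _ _ _
    · subst hK
      exact tri_similar_neg _ _ _
  · unfold crossLen
    refine le_iInf₂ ?_
    intro γ hγ
    have hg : ContinuousOn (fun t => ⟪n, γ t⟫) (Icc 0 1) := continuousOn_const.inner hγ.cont
    obtain ⟨t1, t2, h01, h12, h21, hg1, hg2, hbt⟩ := Tile.exists_piece (fun t => ⟪n, γ t⟫) hg
      D (d - D) (by rw [hγ.start]; exact hD0)
      (by rw [hγ.stop]; linarith) (by linarith)
    have hsub : Icc t1 t2 ⊆ Icc 0 1 := Icc_subset_Icc h01 h21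
    have hgr : ∀ t ∈ Icc t1 t2, ∀ x y : ℝ, γ t = x • e + y • f →
        (∃ m : ℤ, y = m) ∨ (∃ m : ℤ, x - ⌊y⌋ * ((1 + τ) / 2) = m) ∨
          (∃ m : ℤ, x - ⌊y⌋ * ((1 + τ) / 2) + (y - ⌊y⌋) = m) := by
      intro t ht x y hxy
      by_contra hcon
      rw [not_or, not_or] at hcon
      obtain ⟨hc1, hc2, hc3⟩ := hcon
      rw [not_exists] at hc1 hc2 hc3
      obtain ⟨K, hK, hint⟩ := exists_isT e f X Y hX hY hXY huniq δ x y (γ t) hxy hc1 hc2 hc3
      refine hγ.avoid t (hsub ht) K ⟨hK, ?_⟩ hint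
      intro p hp
      have hdm := isT_diam e f X Y hX hY hXY huniq δ K hK p (γ t) hp (interior_subset hint)
      have habs : |⟪n, p - γ t⟫| ≤ D := by
        calc |⟪n, p - γ t⟫| ≤ ‖n‖ * ‖p - γ t‖ := abs_real_inner_le_norm _ _
          _ = ‖p - γ t‖ := by rw [hn1, one_mul]
          _ ≤ D := hdm
      rw [inner_sub_right, abs_le] at habs
      have hb := hbt t ht
      constructor <;> linarith [hb.1, hb.2, habs.1, habs.2]
    have hlen := hκ γ t1 t2 h12 (hγ.cont.mono hsub) hgr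
    calc ENNReal.ofReal (ρ * d) ≤ ENNReal.ofReal (⟪w, γ t2 - γ t1⟫ - κ) := by
          apply ENNReal.ofReal_le_ofReal
          rw [hwv, inner_sub_right]
          rw [hg1, hg2]
          have : d - D - D = d - 2 * D := by ring
          rw [this]
          exact hd2
      _ ≤ eVariationOn γ (Icc t1 t2) := hlen
      _ ≤ eVariationOn γ (Icc 0 1) := eVariationOn.mono γ hsub

end Pool.Agent.LFT53
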